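import Pool.Agent.Y63.NV.Stm9
import Pool.Agent.Y63.KR.Basic
import Pool.Agent.Y286.NV.Fin
import Pool.Agent.Y171.NV.Kfin
import Pool.Agent.Y210.NV2.TRL
import Pool.Agent.Y914.NV.Irr
import Pool.Agent.Y705.NV.Schur

/-!
# Project NV, part 8, LSEP: from single central elements to blocks (helper170)
-/

set_option autoImplicit false

open scoped Classical

noncomputable section

namespace Pool.Agent.Y170.NV

open Pool.Agent.Y63.NV
open Pool.Agent.Y63.KR (IsPChain chainStabilizer alternatingSum conjSub)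
open Pool.Agent.Y286.NV (exists_sep ZG res_classFun sup_conj mem_conj)
open Pool.Agent.Y171.NV (card_mul_alt)
open Pool.Agent.Y210.NV2 (irrTrace_comp)

section

variable {F : Type} [Field F] {Γ : Type} [Group Γ]

/-- the functional on the central elements of a block of a subgroup -/
def lamF (G : Subgroup Γ) {N : Subgroup Γ} {B : (N → F) → F} (hB : IsBlock B) :
    ZG F G →ₗ[F] F where
  toFun z := B (fun x : N => z.1 x)
  map_add' a b := hB.add _ _ (res_classFun a.2 N) (res_classFun b.2 N)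
  map_smul' c a := hB.smul c _ (res_classFun a.2 N)

lemma lamF_apply (G : Subgroup Γ) {N : Subgroup Γ} {B : (N → F) → F} (hB : IsBlock B)
    (z : ZG F G) : lamF G hB z = B (fun x : N => z.1 x) := rfl

/-- conjugation by `g` as an isomorphism of `G ⊓ H` and `G ⊓ gHg⁻¹` -/
def cE (G : Subgroup Γ) [hG : G.Normal] (g : Γ) (H : Subgroup Γ) :
    ↥(G ⊓ H) ≃* ↥(G ⊓ conjSub g H) where
  toFun x := ⟨g * x * g⁻¹, hG.conj_mem x x.2.1 g, mem_conj.mpr x.2.2⟩
  invFun y := ⟨g⁻¹ * y * g, by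
      have := hG.conj_mem y y.2.1 g⁻¹
      rwa [inv_inv] at this, by
      have h1 : (y : Γ) = g * (g⁻¹ * y * g) * g⁻¹ := by group
      have h2 : (y : Γ) ∈ H.map (MulAut.conj g).toMonoidHom := y.2.2
      rw [h1] at h2
      exact mem_conj.mp h2⟩
  left_inv x := by
    apply Subtype.ext
    show g⁻¹ * (g * x * g⁻¹) * g = x
    group
  right_inv y := by
    apply Subtype.ext
    show g * (g⁻¹ * y * g) * g⁻¹ = y
    group
  map_mul' x y := by
    apply Subtype.ext
    show g * (x * y) * g⁻¹ = (g * x * g⁻¹) * (g * y * g⁻¹)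
    group

lemma cE_coe (G : Subgroup Γ) [hG : G.Normal] (g : Γ) (H : Subgroup Γ) (x : ↥(G ⊓ H)) :
    ((cE G g H x : ↥(G ⊓ conjSub g H)) : Γ) = g * x * g⁻¹ := rfl

lemma cE_symm_coe (G : Subgroup Γ) [hG : G.Normal] (g : Γ) (H : Subgroup Γ)
    (y : ↥(G ⊓ conjSub g H)) :
    (((cE G g H).symm y : ↥(G ⊓ H)) : Γ) = g⁻¹ * y * g := rfl

/-- invariance under conjugation -/
lemma numIBrInd_conj (G : Subgroup Γ) [hG : G.Normal] (B : (G → F) → F) (g : Γ)
    (H : Subgroup Γ) : numIBrInd G (conjSub g H) B = numIBrInd G H B := by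
  unfold numIBrInd
  refine Nat.card_congr
    { toFun := fun φ => ⟨fun x => φ.1 (cE G g H x), irrTrace_comp (cE G g H) φ.2.1, ?_, ?_⟩
      invFun := fun φ => ⟨fun x => φ.1 ((cE G g H).symm x),
        irrTrace_comp (cE G g H).symm φ.2.1, ?_, ?_⟩
      left_inv := ?_
      right_inv := ?_ }
  · intro h hh x y hxy
    refine φ.2.2.1 (g * h * g⁻¹) (mem_conj.mpr hh) (cE G g H x) (cE G g H y) ?_
    rw [cE_coe, cE_coe, hxy]
    group
  · intro z hz x
    have h1 := φ.2.2.2 z hz (cE G g H x)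
    have h2 : ∑ᶠ k : ↥(G ⊓ H), z k * φ.1 (cE G g H (k * x)) =
        ∑ᶠ k : ↥(G ⊓ conjSub g H), z k * φ.1 (k * cE G g H x) := by
      rw [← finsum_comp_equiv (cE G g H).toEquiv]
      refine finsum_congr fun k => ?_
      have h3 : z ((cE G g H).toEquiv k : ↥(G ⊓ conjSub g H)) = z k := by
        show z (g * k * g⁻¹) = z k
        exact hz.conj g k
      rw [h3, map_mul]
      rfl
    exact h2.trans h1
  · intro h hh x y hxy
    have h1 : h = g * (g⁻¹ * h * g) * g⁻¹ := by group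
    have h2 : h ∈ H.map (MulAut.conj g).toMonoidHom := hh
    rw [h1] at h2
    refine φ.2.2.1 (g⁻¹ * h * g) (mem_conj.mp h2) ((cE G g H).symm x) ((cE G g H).symm y) ?_
    rw [cE_symm_coe, cE_symm_coe, hxy]
    group
  · intro z hz x
    have h1 := φ.2.2.2 z hz ((cE G g H).symm x)
    have h2 : ∑ᶠ k : ↥(G ⊓ conjSub g H), z k * φ.1 ((cE G g H).symm (k * x)) =
        ∑ᶠ k : ↥(G ⊓ H), z k * φ.1 (k * (cE G g H).symm x) := by
      rw [← finsum_comp_equiv (cE G g H).symm.toEquiv]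
      refine finsum_congr fun k => ?_
      have h3 : z ((cE G g H).symm.toEquiv k : ↥(G ⊓ H)) = z k := by
        have h4 : z k = z (g * (g⁻¹ * k * g) * g⁻¹) := congrArg z (by group)
        show z (g⁻¹ * k * g) = z k
        rw [h4, hz.conj]
      rw [h3, map_mul]
      rfl
    exact h2.trans h1
  · intro φ
    apply Subtype.ext
    funext x
    show φ.1 (cE G g H ((cE G g H).symm x)) = φ.1 x
    rw [(cE G g H).apply_symm_apply]
  · intro φ
    apply Subtype.ext
    funext x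
    show φ.1 ((cE G g H).symm (cE G g H x)) = φ.1 x
    rw [(cE G g H).symm_apply_apply]

end

/-- LSEP: from single central elements to the linear (or arbitrary) functionals -/
theorem lsep : S_LSEP := by
  intro p _ F _ _ _ Γ _ _ G hG hL B
  have hInf : Infinite F := inferInstance
  have hf : ∀ (g : Γ) (H : Subgroup Γ),
      (fun H : Subgroup Γ => if G ⊔ H = ⊤ then (numIBrInd G H B : ℤ) else 0) (conjSub g H) =
      (fun H : Subgroup Γ => if G ⊔ H = ⊤ then (numIBrInd G H B : ℤ) else 0) H := by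
    intro g H
    show (if G ⊔ conjSub g H = ⊤ then (numIBrInd G (conjSub g H) B : ℤ) else 0) =
      if G ⊔ H = ⊤ then (numIBrInd G H B : ℤ) else 0
    have hc : G ⊔ conjSub g H = ⊤ ↔ G ⊔ H = ⊤ := sup_conj G g H
    rw [numIBrInd_conj]
    by_cases h : G ⊔ H = ⊤
    · rw [if_pos h, if_pos (hc.mpr h)]
    · rw [if_neg h, if_neg (fun h' => h (hc.mp h'))]
  have hpos : (Nat.card Γ : ℤ) ≠ 0 := by exact_mod_cast Nat.card_pos.ne'
  have h1 := card_mul_alt (p := p)
    (fun H : Subgroup Γ => if G ⊔ H = ⊤ then (numIBrInd G H B : ℤ) else 0) hf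
  refine mul_left_cancel₀ hpos ?_
  rw [mul_zero, h1]
  -- the functionals of the irreducible traces
  have hirr : ∀ H : Subgroup Γ, Finite {φ : ↥(G ⊓ H) → F // IsIrrTrace φ} :=
    fun H => (Pool.Agent.Y914.NV.irr F ↥(G ⊓ H)).1.to_subtype
  choose hne Bφ hBφ hact using
    fun (q : Σ H : Subgroup Γ, {φ : ↥(G ⊓ H) → F // IsIrrTrace φ}) =>
      (Pool.Agent.Y705.NV.schur Pool.Agent.Y914.NV.irr) F ↥(G ⊓ q.1) q.2.1 q.2.2
  by_cases hex : ∃ b : ZG F G →ₗ[F] F, ∀ z : ZG F G, B (fun y : G => z.1 y) = b z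
  · obtain ⟨b, hb⟩ := hex
    obtain ⟨z, hz⟩ := exists_sep (fun q : Σ H : Subgroup Γ,
      {φ : ↥(G ⊓ H) → F // IsIrrTrace φ} => lamF G (hBφ q)) b
    have e1 : ∀ H : Subgroup Γ, Lnum (G ⊓ H) H z.1 (b z) = numIBrInd G H B := by
      intro H
      unfold Lnum numIBrInd
      refine Nat.card_congr (Equiv.subtypeEquivRight fun φ => ?_)
      constructor
      · rintro ⟨hφ, hinv, hzφ⟩
        refine ⟨hφ, hinv, fun z' hz' x => ?_⟩
        obtain ⟨y, hy⟩ := hne ⟨H, φ, hφ⟩
        have h4 : Bφ ⟨H, φ, hφ⟩ (fun x : ↥(G ⊓ H) => z.1 x) = b z := by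
          have h5 := hact ⟨H, φ, hφ⟩ (fun x : ↥(G ⊓ H) => z.1 x) (res_classFun z.2 _) y
          have h6 := hzφ y
          exact mul_right_cancel₀ hy (h5.symm.trans h6)
        have h5 : lamF G (hBφ ⟨H, φ, hφ⟩) = b := hz ⟨H, φ, hφ⟩ h4
        have h6 : Bφ ⟨H, φ, hφ⟩ (fun x : ↥(G ⊓ H) => z' x) = B (fun y : G => z' y) := by
          have h7 := hb ⟨z', hz'⟩
          rw [← h5] at h7
          exact h7.symm
        rw [← h6]
        exact hact ⟨H, φ, hφ⟩ (fun x => z' x) (res_classFun hz' _) x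
      · rintro ⟨hφ, hinv, hzφ⟩
        refine ⟨hφ, hinv, fun x => ?_⟩
        rw [← hb z]
        exact hzφ z.1 z.2 x
    have h2 := hL z.1 (b z) z.2
    refine Eq.trans (finsum_congr fun σ => ?_) h2
    have h3 : ((Nat.card (chainStabilizer σ.1) : ℤ) *
        (if G ⊔ chainStabilizer σ.1 = ⊤ then (numIBrInd G (chainStabilizer σ.1) B : ℤ) else 0)) =
        Lsum G (chainStabilizer σ.1) z.1 (b z) := by
      unfold Lsum
      by_cases h : G ⊔ chainStabilizer σ.1 = ⊤
      · rw [if_pos h, if_pos h, e1]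
      · rw [if_neg h, if_neg h, mul_zero]
    rw [← h3]
  · have e1 : ∀ H : Subgroup Γ, numIBrInd G H B = 0 := by
      intro H
      unfold numIBrInd
      have : IsEmpty {φ : ↥(G ⊓ H) → F // IsIrrTrace φ ∧ IsInvUnder H φ ∧
          ∀ z : Γ → F, InZ G z → ∀ x : ↥(G ⊓ H),
            ∑ᶠ g : ↥(G ⊓ H), z g * φ (g * x) = B (fun y : G => z y) * φ x} := by
        refine ⟨fun φ => hex ⟨lamF G (hBφ ⟨H, φ.1, φ.2.1⟩), fun z => ?_⟩⟩
        obtain ⟨y, hy⟩ := hne ⟨H, φ.1, φ.2.1⟩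
        have h5 := hact ⟨H, φ.1, φ.2.1⟩ (fun x : ↥(G ⊓ H) => z.1 x) (res_classFun z.2 _) y
        have h6 := φ.2.2.2 z.1 z.2 y
        exact mul_right_cancel₀ hy (h6.symm.trans h5)
      exact Nat.card_of_isEmpty
    have e3 : ∀ σ : {σ : Set (Subgroup Γ) // IsPChain p σ}, ((-1) ^ σ.1.ncard *
        ((Nat.card (chainStabilizer σ.1) : ℤ) *
          (if G ⊔ chainStabilizer σ.1 = ⊤ then (numIBrInd G (chainStabilizer σ.1) B : ℤ)
            else 0)) : ℤ) = 0 := by
      intro σ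
      rw [e1]
      by_cases h : G ⊔ chainStabilizer σ.1 = ⊤
      · rw [if_pos h, Nat.cast_zero, mul_zero, mul_zero]
      · rw [if_neg h, mul_zero, mul_zero]
    exact (finsum_congr e3).trans finsum_zero

end Pool.Agent.Y170.NV
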